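import Pool.Agent.H18.Ehrhart.Alg

/-!
Adapted families: for every finite set `S` of exponents there are polynomials supported in `S`
with the elements of `S` as leading exponents and large total order of vanishing at `(1,…,1)`.
-/

namespace Pool.Agent.H18.Ehrhart

open MvPolynomial

noncomputable section

variable {d : ℕ}

/-- Exponents of total degree less than `a`. -/
def lowExp (d a : ℕ) : Finset (Fin d →₀ ℕ) :=
  (Finset.range a).biUnion fun n => (Finset.univ : Finset (Fin d)).finsuppAntidiag n

theorem mem_lowExp {a : ℕ} {α : Fin d →₀ ℕ} : α ∈ lowExp d a ↔ ∑ i, α i < a := by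
  classical
  simp [lowExp, Finset.mem_finsuppAntidiag]

theorem card_lowExp_succ (d n : ℕ) : (lowExp d (n + 1)).card ≤ (n + d).choose d := by
  classical
  rw [lowExp]
  refine Finset.card_biUnion_le.trans ?_
  rw [← Nat.sum_range_multichoose]
  apply Finset.sum_le_sum
  intro i _
  rw [Finset.card_finsuppAntidiag_nat_eq_multichoose, Finset.card_univ, Fintype.card_fin]

theorem sum_card_lowExp (d A : ℕ) :
    ∑ n ∈ Finset.range A, (lowExp d (n + 1)).card ≤ (A + d).choose (d + 1) := by
  rcases A with _ | A
  · simp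
  · refine (Finset.sum_le_sum fun n _ => card_lowExp_succ d n).trans ?_
    rw [Nat.sum_range_add_choose]
    apply le_of_eq
    congr 1
    ring

/-- The polynomial with prescribed coefficients on `S`. -/
def mk (S : Finset (Fin d →₀ ℕ)) : (S → F2) →ₗ[F2] MvPolynomial (Fin d) F2 :=
  ∑ e : S, (monomial e.1 : F2 →ₗ[F2] MvPolynomial (Fin d) F2) ∘ₗ LinearMap.proj e

theorem mk_apply (S : Finset (Fin d →₀ ℕ)) (x : S → F2) :
    mk S x = ∑ e : S, monomial e.1 (x e) := by
  simp [mk]

theorem coeff_mk_mem (S : Finset (Fin d →₀ ℕ)) (x : S → F2) (e : S) :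
    coeff e.1 (mk S x) = x e := by
  classical
  rw [mk_apply, coeff_sum, Finset.sum_eq_single e]
  · simp
  · intro b _ hb
    rw [coeff_monomial, if_neg]
    intro h
    exact hb (Subtype.ext h)
  · simp

theorem coeff_mk_notMem (S : Finset (Fin d →₀ ℕ)) (x : S → F2) {e : Fin d →₀ ℕ}
    (he : e ∉ S) : coeff e (mk S x) = 0 := by
  classical
  rw [mk_apply, coeff_sum]
  apply Finset.sum_eq_zero
  intro b _
  rw [coeff_monomial, if_neg]
  intro h
  exact he (h ▸ b.2)

theorem support_mk (S : Finset (Fin d →₀ ℕ)) (x : S → F2) : (mk S x).support ⊆ S := by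
  intro e he
  by_contra hcon
  exact (mem_support_iff.1 he) (coeff_mk_notMem S x hcon)

/-- The monomial order used. -/
abbrev ord (d : ℕ) : MonomialOrder (Fin d) := MonomialOrder.lex

/-- Leading exponents of polynomials supported in `S` that vanish to order at least `a`. -/
def Good (S : Finset (Fin d →₀ ℕ)) (a : ℕ) (e : Fin d →₀ ℕ) : Prop :=
  ∃ p : MvPolynomial (Fin d) F2, p ≠ 0 ∧ (ord d).degree p = e ∧ p.support ⊆ S ∧ Van a p

theorem good_zero (S : Finset (Fin d →₀ ℕ)) {e : Fin d →₀ ℕ} (he : e ∈ S) : Good S 0 e := by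
  classical
  refine ⟨monomial e 1, ?_, ?_, ?_, van_zero_order _⟩
  · simp
  · rw [MonomialOrder.degree_monomial, if_neg one_ne_zero]
  · intro e' he'
    have h := MvPolynomial.support_monomial_subset he'
    rw [Finset.mem_singleton] at h
    exact h ▸ he

open Classical in
theorem card_good (S : Finset (Fin d →₀ ℕ)) (a : ℕ) :
    S.card ≤ (S.filter (Good S a)).card + (lowExp d a).card := by
  classical
  let L : (S → F2) →ₗ[F2] (lowExp d a → F2) :=
    LinearMap.pi fun α => (lcoeff F2 α.1 : MvPolynomial (Fin d) F2 →ₗ[F2] F2) ∘ₗ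
      (sh (d := d)).toLinearMap ∘ₗ mk S
  have hL : ∀ x α, L x α = coeff α.1 (sh (mk S x)) := fun x α => rfl
  have h1 : Module.finrank F2 (LinearMap.range L) + Module.finrank F2 (LinearMap.ker L)
      = S.card := by
    rw [LinearMap.finrank_range_add_finrank_ker, Module.finrank_fintype_fun_eq_card,
      Fintype.card_coe]
  have h2 : Module.finrank F2 (LinearMap.range L) ≤ (lowExp d a).card := by
    refine (Submodule.finrank_le _).trans ?_
    rw [Module.finrank_fintype_fun_eq_card, Fintype.card_coe]
  let B := S.filter (Good S a)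
  let P : (LinearMap.ker L) →ₗ[F2] (B → F2) :=
    LinearMap.pi fun b => (LinearMap.proj (⟨b.1, (Finset.mem_filter.1 b.2).1⟩ : S)) ∘ₗ
      (LinearMap.ker L).subtype
  have hPi : Function.Injective P := by
    rw [injective_iff_map_eq_zero]
    intro x hx
    by_contra hne
    have hxne : (x : S → F2) ≠ 0 := fun h => hne (Subtype.ext h)
    have hp : mk S x.1 ≠ 0 := by
      intro h
      apply hxne
      funext e
      rw [← coeff_mk_mem S x.1 e, h]
      simp
    have hdeg := (ord d).degree_mem_support hp
    have hS : (ord d).degree (mk S x.1) ∈ S := support_mk S x.1 hdeg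
    have hgood : Good S a ((ord d).degree (mk S x.1)) := by
      refine ⟨mk S x.1, hp, rfl, support_mk S x.1, ?_⟩
      intro α hα
      by_contra hlt
      push Not at hlt
      have hmem : α ∈ lowExp d a := mem_lowExp.2 hlt
      have h3 : L x.1 ⟨α, hmem⟩ = 0 := by
        have := x.2
        rw [LinearMap.mem_ker] at this
        rw [this]
        rfl
      rw [hL] at h3
      exact (mem_support_iff.1 hα) h3
    have hB : (ord d).degree (mk S x.1) ∈ B := Finset.mem_filter.2 ⟨hS, hgood⟩
    have h4 : P x ⟨_, hB⟩ = 0 := by rw [hx]; rfl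
    have h5 : P x ⟨_, hB⟩ = x.1 ⟨_, hS⟩ := rfl
    rw [h5, ← coeff_mk_mem S x.1 ⟨_, hS⟩] at h4
    exact (mem_support_iff.1 hdeg) h4
  have h3 : Module.finrank F2 (LinearMap.ker L) ≤ B.card := by
    refine (LinearMap.finrank_le_finrank_of_injective hPi).trans ?_
    rw [Module.finrank_fintype_fun_eq_card, Fintype.card_coe]
  have h4 : S.card ≤ B.card + (lowExp d a).card := by omega
  exact h4

/-- Existence of an adapted family. -/
theorem adapted (S : Finset (Fin d →₀ ℕ)) (A : ℕ) :
    ∃ (s : (Fin d →₀ ℕ) → MvPolynomial (Fin d) F2) (G : (Fin d →₀ ℕ) → ℕ),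
      (∀ e ∈ S, s e ≠ 0 ∧ (ord d).degree (s e) = e ∧ (s e).support ⊆ S ∧ Van (G e) (s e)) ∧
      A * S.card ≤ ∑ e ∈ S, G e + (A + d).choose (d + 1) := by
  classical
  let G : (Fin d →₀ ℕ) → ℕ := fun e => Nat.findGreatest (fun a => Good S a e) A
  have hG : ∀ e ∈ S, Good S (G e) e := by
    intro e he
    exact Nat.findGreatest_spec (P := fun a => Good S a e) (Nat.zero_le A) (good_zero S he)
  choose! s hs using hG
  refine ⟨s, G, hs, ?_⟩
  have h1 : ∀ e ∈ S, ((Finset.range A).filter fun n => Good S (n + 1) e).card ≤ G e := by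
    intro e _
    have : ((Finset.range A).filter fun n => Good S (n + 1) e) ⊆ Finset.range (G e) := by
      intro n hn
      rw [Finset.mem_filter, Finset.mem_range] at hn
      rw [Finset.mem_range]
      exact Nat.le_findGreatest (P := fun a => Good S a e) hn.1 hn.2
    simpa using Finset.card_le_card this
  have h2 : ∑ n ∈ Finset.range A, (S.filter (Good S (n + 1))).card ≤ ∑ e ∈ S, G e := by
    refine le_trans (le_of_eq ?_) (Finset.sum_le_sum h1)
    simp only [Finset.card_filter]
    exact Finset.sum_comm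
  have h3 : A * S.card ≤ ∑ n ∈ Finset.range A,
      ((S.filter (Good S (n + 1))).card + (lowExp d (n + 1)).card) := by
    calc A * S.card = ∑ _n ∈ Finset.range A, S.card := by simp
      _ ≤ _ := Finset.sum_le_sum fun n _ => card_good S (n + 1)
  rw [Finset.sum_add_distrib] at h3
  have h4 := sum_card_lowExp d A
  omega

end

end Pool.Agent.H18.Ehrhart
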