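import Mathlib

/-!
Order of vanishing of polynomials at the point `(1, …, 1)` over a field with two elements,
adapted families with prescribed leading exponents, and the residue class argument.
-/

namespace Pool.Agent.H18.Ehrhart

open MvPolynomial

noncomputable section

variable {d : ℕ}

/-- Field with two elements. -/
abbrev F2 : Type := ZMod 2

/-- The translation `X_i ↦ X_i + 1`. -/
def sh : MvPolynomial (Fin d) F2 →ₐ[F2] MvPolynomial (Fin d) F2 :=
  aeval (fun i => X i + 1)

/-- `p` vanishes to order at least `a` at the point `(1,…,1)`. -/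
def Van (a : ℕ) (p : MvPolynomial (Fin d) F2) : Prop :=
  ∀ α ∈ (sh p).support, a ≤ ∑ i, α i

theorem sh_sh (p : MvPolynomial (Fin d) F2) : sh (sh p) = p := by
  have h : (sh.comp sh : MvPolynomial (Fin d) F2 →ₐ[F2] MvPolynomial (Fin d) F2)
      = AlgHom.id F2 _ := by
    apply MvPolynomial.algHom_ext
    intro i
    simp only [AlgHom.comp_apply, sh, aeval_X, map_add, map_one, AlgHom.id_apply]
    have h2 : (1 + 1 : MvPolynomial (Fin d) F2) = 0 := by
      rw [one_add_one_eq_two]
      have : ((2 : ℕ) : MvPolynomial (Fin d) F2) = C ((2 : ℕ) : F2) :=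
        (map_natCast (C : F2 →+* MvPolynomial (Fin d) F2) 2).symm
      have h3 : ((2 : ℕ) : F2) = 0 := by decide
      rw [h3, map_zero] at this
      exact_mod_cast this
    rw [add_assoc, h2, add_zero]
  exact DFunLike.congr_fun h p

theorem van_zero_order (p : MvPolynomial (Fin d) F2) : Van 0 p := fun _ _ => Nat.zero_le _

theorem Van.mul {a b : ℕ} {p q : MvPolynomial (Fin d) F2} (hp : Van a p) (hq : Van b q) :
    Van (a + b) (p * q) := by
  classical
  intro α hα
  rw [map_mul] at hα
  obtain ⟨β, hβ, γ, hγ, rfl⟩ := Finset.mem_add.1 (MvPolynomial.support_mul _ _ hα)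
  have h1 := hp β hβ
  have h2 := hq γ hγ
  simp only [Finsupp.coe_add, Pi.add_apply, Finset.sum_add_distrib]
  omega

theorem van_one : Van 0 (1 : MvPolynomial (Fin d) F2) := van_zero_order _

theorem van_prod {ι : Type*} (s : Finset ι) (G : ι → ℕ) (P : ι → MvPolynomial (Fin d) F2)
    (h : ∀ i ∈ s, Van (G i) (P i)) : Van (∑ i ∈ s, G i) (∏ i ∈ s, P i) := by
  classical
  induction s using Finset.induction_on with
  | empty => simpa using van_one
  | insert j s hj ih =>
    rw [Finset.sum_insert hj, Finset.prod_insert hj]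
    exact (h j (Finset.mem_insert_self _ _)).mul
      (ih fun i hi => h i (Finset.mem_insert_of_mem hi))

theorem van_pow {a : ℕ} {p : MvPolynomial (Fin d) F2} (hp : Van a p) (n : ℕ) :
    Van (n * a) (p ^ n) := by
  induction n with
  | zero => simpa using van_one
  | succ n ih =>
    rw [pow_succ, Nat.succ_mul]
    exact ih.mul hp

/-- The projection to the group algebra of `(ℤ/q)^d`. -/
def red (q : ℕ) : MvPolynomial (Fin d) F2 →ₐ[F2] AddMonoidAlgebra F2 (Fin d → ZMod q) :=
  aeval (fun i => AddMonoidAlgebra.single (Pi.single i 1) 1)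

theorem red_monomial (q : ℕ) (e : Fin d →₀ ℕ) (c : F2) :
    red q (monomial e c) = AddMonoidAlgebra.single (fun i => (e i : ZMod q)) c := by
  classical
  rw [red, aeval_monomial, Finsupp.prod_fintype _ _ (by intro i; simp)]
  have h1 : ∀ i : Fin d, (AddMonoidAlgebra.single (Pi.single i (1 : ZMod q)) (1 : F2) :
      AddMonoidAlgebra F2 (Fin d → ZMod q)) ^ (e i)
      = AddMonoidAlgebra.of F2 (Fin d → ZMod q)
        (Multiplicative.ofAdd ((e i) • (Pi.single i (1 : ZMod q)))) := by
    intro i
    rw [AddMonoidAlgebra.single_pow, one_pow]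
    rfl
  rw [Finset.prod_congr rfl fun i _ => h1 i, ← map_prod, ← ofAdd_sum]
  have h2 : (∑ i : Fin d, (e i) • (Pi.single i (1 : ZMod q) : Fin d → ZMod q))
      = fun i => (e i : ZMod q) := by
    funext j
    rw [Finset.sum_apply]
    simp only [Pi.smul_apply, Pi.single_apply, nsmul_eq_mul, mul_ite, mul_one, mul_zero]
    simp
  rw [h2]
  have h3 : (AddMonoidAlgebra.of F2 (Fin d → ZMod q))
      (Multiplicative.ofAdd (fun i => (e i : ZMod q)))
      = AddMonoidAlgebra.single (fun i => (e i : ZMod q)) (1 : F2) := rfl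
  rw [h3, ← Algebra.smul_def, AddMonoidAlgebra.smul_single, smul_eq_mul, mul_one]

theorem two_eq_zero_alg (q : ℕ) : (2 : AddMonoidAlgebra F2 (Fin d → ZMod q)) = 0 := by
  have h : ((2 : ℕ) : AddMonoidAlgebra F2 (Fin d → ZMod q))
      = algebraMap F2 _ ((2 : ℕ) : F2) := (map_natCast (algebraMap F2 _) 2).symm
  have h3 : ((2 : ℕ) : F2) = 0 := by decide
  rw [h3, map_zero] at h
  exact_mod_cast h

theorem red_X_add_one_pow (e : ℕ) (i : Fin d) :
    (red (2 ^ e) (X i + 1 : MvPolynomial (Fin d) F2)) ^ (2 ^ e) = 0 := by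
  classical
  have key : ∀ (x : AddMonoidAlgebra F2 (Fin d → ZMod (2 ^ e))) (n : ℕ),
      (x + 1) ^ (2 ^ n) = x ^ (2 ^ n) + 1 := by
    intro x n
    induction n with
    | zero => simp
    | succ n ih =>
      rw [pow_succ, pow_mul, ih, add_sq, two_eq_zero_alg]
      simp [← pow_mul]
  rw [map_add, map_one, key]
  have h1 : (red (2 ^ e) (X i : MvPolynomial (Fin d) F2)) ^ (2 ^ e) = 1 := by
    rw [← map_pow, X_pow_eq_monomial, red_monomial]
    have : (fun j => (((Finsupp.single i (2 ^ e) : Fin d →₀ ℕ) j : ℕ) : ZMod (2 ^ e)))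
        = 0 := by
      funext j
      by_cases hj : j = i
      · subst hj
        simp only [Finsupp.single_eq_same, Pi.zero_apply]
        exact ZMod.natCast_self _
      · simp [Finsupp.single_eq_of_ne hj]
    rw [this]
    rfl
  rw [h1, one_add_one_eq_two, two_eq_zero_alg]

/-- Vanishing of high order at `1` kills the image in the group algebra of `(ℤ/2^e)^d`. -/
theorem red_eq_zero {e a : ℕ} {p : MvPolynomial (Fin d) F2} (hp : Van a p)
    (ha : d * (2 ^ e - 1) < a) : red (2 ^ e) p = 0 := by
  classical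
  rw [← sh_sh p, MvPolynomial.as_sum (sh p), map_sum, map_sum]
  apply Finset.sum_eq_zero
  intro α hα
  have h1 := hp α hα
  have h2 : ∃ i, 2 ^ e ≤ α i := by
    by_contra hcon
    push Not at hcon
    have h3 : ∑ i, α i ≤ ∑ _i : Fin d, (2 ^ e - 1) :=
      Finset.sum_le_sum fun i _ => by have := hcon i; omega
    simp only [Finset.sum_const, Finset.card_univ, Fintype.card_fin, smul_eq_mul] at h3
    omega
  obtain ⟨i, hi⟩ := h2
  rw [sh, aeval_monomial, Finsupp.prod_fintype _ _ (by intro i; simp), map_mul, map_prod,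
    ← Finset.mul_prod_erase Finset.univ _ (Finset.mem_univ i), map_pow]
  have h4 : (red (2 ^ e) (X i + 1 : MvPolynomial (Fin d) F2)) ^ (α i) = 0 :=
    pow_eq_zero_of_le hi (red_X_add_one_pow e i)
  rw [h4, zero_mul, mul_zero]

/-- If a single exponent of `p` lies in its residue class modulo `q`, the image of `p` in the
group algebra is nonzero. -/
theorem red_ne_zero {q : ℕ} {p : MvPolynomial (Fin d) F2} {e₀ : Fin d →₀ ℕ}
    (h0 : e₀ ∈ p.support)
    (huniq : ∀ e ∈ p.support, (∀ i, (e i : ZMod q) = (e₀ i : ZMod q)) → e = e₀) :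
    red q p ≠ 0 := by
  classical
  intro hz
  have h1 : (red q p).coeff (fun i => (e₀ i : ZMod q)) = coeff e₀ p := by
    conv_lhs => rw [MvPolynomial.as_sum p, map_sum, AddMonoidAlgebra.coeff_sum]
    rw [Finsupp.finsetSum_apply, Finset.sum_eq_single e₀]
    · rw [red_monomial]
      exact Finsupp.single_eq_same
    · intro e he hne
      rw [red_monomial, AddMonoidAlgebra.coeff_single]
      apply Finsupp.single_eq_of_ne
      intro hcon
      apply hne
      apply huniq e he
      intro i
      exact (congrFun hcon i).symm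
    · intro h
      exact absurd h0 h
  rw [hz] at h1
  exact (MvPolynomial.mem_support_iff.1 h0) h1.symm

end

end Pool.Agent.H18.Ehrhart
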