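import Pool.Agent.H18.Ehrhart.Adapt

/-!
The key inequality: a polynomial whose support lies in a translate of `r • K`, with leading
exponent essentially the centre, vanishes to order at most `d r` at `(1,…,1)`, when the interior
of `K` contains no nonzero integer point.
-/

namespace Pool.Agent.H18.Ehrhart

open MvPolynomial
open scoped Pointwise

noncomputable section

variable {d : ℕ}

/-- The real vector of an exponent. -/
def vec (e : Fin d →₀ ℕ) : Fin d → ℝ := fun i => (e i : ℝ)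

theorem vec_zero : vec (0 : Fin d →₀ ℕ) = 0 := by
  funext i; simp [vec]

theorem vec_add (e f : Fin d →₀ ℕ) : vec (e + f) = vec e + vec f := by
  funext i; simp [vec]

theorem vec_nsmul (n : ℕ) (e : Fin d →₀ ℕ) : vec (n • e) = (n : ℝ) • vec e := by
  funext i; simp [vec]

theorem vec_sum {ι : Type*} (s : Finset ι) (f : ι → (Fin d →₀ ℕ)) :
    vec (∑ i ∈ s, f i) = ∑ i ∈ s, vec (f i) := by
  funext i
  simp [vec, Finset.sum_apply, Finsupp.finsetSum_apply]

/-- The support of `p` lies in `v + r • K`. -/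
def Sup (K : Set (Fin d → ℝ)) (r : ℝ) (v : Fin d → ℝ) (p : MvPolynomial (Fin d) F2) : Prop :=
  ∀ e ∈ p.support, vec e - v ∈ r • K

variable {K : Set (Fin d → ℝ)}

theorem sup_one (h0 : (0 : Fin d → ℝ) ∈ K) : Sup K 0 0 (1 : MvPolynomial (Fin d) F2) := by
  intro e he
  have : e = 0 := by
    by_contra hne
    apply (mem_support_iff.1 he)
    rw [MvPolynomial.coeff_one, if_neg (Ne.symm hne)]
  subst this
  rw [vec_zero, sub_zero]
  exact ⟨0, h0, by simp⟩

theorem Sup.mul (hK : Convex ℝ K) {r s : ℝ} (hr : 0 ≤ r) (hs : 0 ≤ s) {v w : Fin d → ℝ}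
    {p q : MvPolynomial (Fin d) F2} (hp : Sup K r v p) (hq : Sup K s w q) :
    Sup K (r + s) (v + w) (p * q) := by
  classical
  intro e he
  obtain ⟨β, hβ, γ, hγ, rfl⟩ := Finset.mem_add.1 (MvPolynomial.support_mul _ _ he)
  rw [hK.add_smul hr hs]
  have : vec (β + γ) - (v + w) = (vec β - v) + (vec γ - w) := by rw [vec_add]; abel
  rw [this]
  exact Set.add_mem_add (hp β hβ) (hq γ hγ)

theorem sup_prod (hK : Convex ℝ K) (h0 : (0 : Fin d → ℝ) ∈ K) {ι : Type*} (s : Finset ι)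
    (P : ι → MvPolynomial (Fin d) F2) {r : ℝ} (hr : 0 ≤ r) (v : Fin d → ℝ)
    (h : ∀ i ∈ s, Sup K r v (P i)) :
    Sup K (s.card * r) ((s.card : ℝ) • v) (∏ i ∈ s, P i) := by
  classical
  induction s using Finset.induction_on with
  | empty => simpa using sup_one h0
  | insert j s hj ih =>
    rw [Finset.prod_insert hj, Finset.card_insert_of_notMem hj]
    have h1 := (h j (Finset.mem_insert_self _ _)).mul hK hr (by positivity)
      (ih fun i hi => h i (Finset.mem_insert_of_mem hi))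
    have h2 : (((s.card + 1 : ℕ) : ℝ)) * r = r + s.card * r := by push_cast; ring
    have h3 : (((s.card + 1 : ℕ) : ℝ)) • v = v + (s.card : ℝ) • v := by
      push_cast; rw [add_smul, one_smul, add_comm]
    rw [h2, h3]
    exact h1

theorem sup_pow (hK : Convex ℝ K) (h0 : (0 : Fin d → ℝ) ∈ K)
    {p : MvPolynomial (Fin d) F2} {r : ℝ} (hr : 0 ≤ r) (v : Fin d → ℝ)
    (h : Sup K r v p) (n : ℕ) : Sup K (n * r) ((n : ℝ) • v) (p ^ n) := by
  have := sup_prod hK h0 (Finset.range n) (fun _ => p) hr v (fun _ _ => h)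
  simpa using this

/-- Scaling a point of `K` by a factor in `[0,1)` gives an interior point. -/
theorem smul_mem_interior (hK : Convex ℝ K) (h0 : (0 : Fin d → ℝ) ∈ interior K)
    {t : ℝ} (ht0 : 0 ≤ t) (ht1 : t < 1) {x : Fin d → ℝ} (hx : x ∈ t • K) : x ∈ interior K := by
  obtain ⟨y, hy, rfl⟩ := hx
  have := hK.combo_interior_self_mem_interior h0 hy (sub_pos.2 ht1) ht0 (by ring)
  simpa using this

theorem key_pow (hK : Convex ℝ K) (h0 : (0 : Fin d → ℝ) ∈ interior K)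
    (hL : ∀ m : Fin d → ℤ, (fun i => (m i : ℝ)) ∈ interior K → m = 0)
    {p : MvPolynomial (Fin d) F2} (hp : p ≠ 0) {a : ℕ} (hv : Van a p) {r ρ : ℝ}
    (hr : 0 ≤ r) (hρ : 0 ≤ ρ) {v : Fin d → ℝ} (hs : Sup K r v p)
    (hσ : v - vec ((ord d).degree p) ∈ ρ • K) (e n : ℕ)
    (hn : (n : ℝ) * (r + ρ) < 2 ^ e) : n * a ≤ d * 2 ^ e := by
  classical
  have h0K : (0 : Fin d → ℝ) ∈ K := interior_subset h0
  have hpn : p ^ n ≠ 0 := pow_ne_zero n hp
  have hdeg : (ord d).degree (p ^ n) = n • (ord d).degree p := (ord d).degree_pow p n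
  have hmem : n • (ord d).degree p ∈ (p ^ n).support := by
    rw [← hdeg]; exact (ord d).degree_mem_support hpn
  have hsn := sup_pow hK h0K hr v hs n
  have hq : (0 : ℝ) < 2 ^ e := by positivity
  have hne : red (2 ^ e) (p ^ n) ≠ 0 := by
    apply red_ne_zero hmem
    intro f hf hcong
    have h1 : ∀ i, ∃ m : ℤ, (f i : ℤ) = n * (((ord d).degree p) i : ℤ) + 2 ^ e * m := by
      intro i
      have h2 := hcong i
      have h3 : (((f i : ℤ)) : ZMod (2 ^ e)) = ((((n • (ord d).degree p) i : ℕ) : ℤ) :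
          ZMod (2 ^ e)) := by
        push_cast
        exact_mod_cast h2
      rw [eq_comm, ZMod.intCast_eq_intCast_iff_dvd_sub] at h3
      obtain ⟨m, hm⟩ := h3
      refine ⟨m, ?_⟩
      have h4 : (((n • (ord d).degree p) i : ℕ) : ℤ) = n * (((ord d).degree p) i : ℤ) := by
        simp
      rw [h4] at hm
      push_cast at hm
      linarith
    choose m hm using h1
    have h5 : (2 ^ e : ℝ) • (fun i => (m i : ℝ)) = (vec f - (n : ℝ) • v)
        + (n : ℝ) • (v - vec ((ord d).degree p)) := by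
      funext i
      have h6 : (f i : ℝ) = n * (((ord d).degree p) i : ℝ) + 2 ^ e * (m i : ℝ) := by
        exact_mod_cast hm i
      simp only [Pi.smul_apply, smul_eq_mul, Pi.add_apply, Pi.sub_apply, vec]
      rw [h6]
      ring
    have h7 : (n : ℝ) • (v - vec ((ord d).degree p)) ∈ ((n : ℝ) * ρ) • K := by
      rw [mul_smul]
      exact Set.smul_mem_smul_set hσ
    have h8 : (2 ^ e : ℝ) • (fun i => (m i : ℝ)) ∈ ((n : ℝ) * (r + ρ)) • K := by
      rw [h5, mul_add, hK.add_smul (by positivity) (by positivity)]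
      exact Set.add_mem_add (hsn f hf) h7
    have h9 : (fun i => (m i : ℝ)) ∈ (((n : ℝ) * (r + ρ)) / 2 ^ e) • K := by
      obtain ⟨y, hy, hy2⟩ := h8
      refine ⟨y, hy, ?_⟩
      have : (fun i => (m i : ℝ)) = (2 ^ e : ℝ)⁻¹ • ((2 ^ e : ℝ) • (fun i => (m i : ℝ))) := by
        rw [smul_smul, inv_mul_cancel₀ hq.ne', one_smul]
      rw [this, ← hy2]
      simp only [smul_smul]
      congr 1
      field_simp
    have h10 : (fun i => (m i : ℝ)) ∈ interior K :=
      smul_mem_interior hK h0 (by positivity) ((div_lt_one hq).2 hn) h9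
    have h11 := hL m h10
    ext i
    have h12 := hm i
    rw [h11] at h12
    simp only [Pi.zero_apply, mul_zero, add_zero] at h12
    have h13 : (((n • (ord d).degree p) i : ℕ) : ℤ) = n * (((ord d).degree p) i : ℤ) := by
      simp
    exact_mod_cast h12.trans h13.symm
  by_contra hcon
  push Not at hcon
  apply hne
  apply red_eq_zero (van_pow hv n)
  refine lt_of_le_of_lt ?_ hcon
  exact Nat.mul_le_mul_left d (Nat.sub_le _ _)

theorem key (hK : Convex ℝ K) (h0 : (0 : Fin d → ℝ) ∈ interior K)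
    (hL : ∀ m : Fin d → ℤ, (fun i => (m i : ℝ)) ∈ interior K → m = 0)
    {p : MvPolynomial (Fin d) F2} (hp : p ≠ 0) {a : ℕ} (hv : Van a p) {r ρ : ℝ}
    (hr : 0 < r) (hρ : 0 ≤ ρ) {v : Fin d → ℝ} (hs : Sup K r v p)
    (hσ : v - vec ((ord d).degree p) ∈ ρ • K) : (a : ℝ) ≤ d * (r + ρ) := by
  by_contra hcon
  push Not at hcon
  set R : ℝ := r + ρ with hR
  have hRpos : 0 < R := by positivity
  have ht : 0 < (a : ℝ) / R - d := by
    rw [sub_pos, lt_div_iff₀ hRpos]
    exact hcon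
  obtain ⟨e, he⟩ := pow_unbounded_of_one_lt ((a : ℝ) / ((a : ℝ) / R - d)) (one_lt_two : (1 : ℝ) < 2)
  rw [div_lt_iff₀ ht] at he
  have hq : (0 : ℝ) < 2 ^ e := by positivity
  have hc1 : 0 < (2 : ℝ) ^ e / R := by positivity
  have hc2 : 0 < ⌈(2 : ℝ) ^ e / R⌉₊ := Nat.ceil_pos.2 hc1
  obtain ⟨n, hn⟩ : ∃ n : ℕ, ⌈(2 : ℝ) ^ e / R⌉₊ = n + 1 := ⟨_, (Nat.succ_pred_eq_of_pos hc2).symm⟩
  have hn1 : (2 : ℝ) ^ e / R ≤ n + 1 := by
    have := Nat.le_ceil ((2 : ℝ) ^ e / R)
    rw [hn] at this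
    exact_mod_cast this
  have hn2 : (n : ℝ) < (2 : ℝ) ^ e / R := by
    have := Nat.ceil_lt_add_one hc1.le
    rw [hn] at this
    push_cast at this
    linarith
  have hn3 : (n : ℝ) * (r + ρ) < 2 ^ e := by
    rw [lt_div_iff₀ hRpos] at hn2
    exact hn2
  have h1 := key_pow hK h0 hL hp hv hr.le hρ hs hσ e n hn3
  have h2 : (n : ℝ) * a ≤ d * 2 ^ e := by exact_mod_cast h1
  have h3 : ((2 : ℝ) ^ e / R - 1) * a ≤ n * a :=
    mul_le_mul_of_nonneg_right (by linarith) (Nat.cast_nonneg a)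
  have h4 : (2 : ℝ) ^ e * ((a : ℝ) / R - d) = ((2 : ℝ) ^ e / R) * a - d * 2 ^ e := by
    field_simp
  nlinarith

/-- Main inequality for a finite set of exponents. -/
theorem main_exp (hK : Convex ℝ K) (h0 : (0 : Fin d → ℝ) ∈ interior K)
    (hL : ∀ m : Fin d → ℤ, (fun i => (m i : ℝ)) ∈ interior K → m = 0)
    (S : Finset (Fin d →₀ ℕ)) (hS : S.Nonempty) {k ρ : ℝ} (hk : 0 < k) (hρ : 0 ≤ ρ)
    (v : Fin d → ℝ) (hSK : ∀ e ∈ S, vec e - v ∈ k • K)
    (hσ : (S.card : ℝ) • v - ∑ e ∈ S, vec e ∈ ρ • K) (A : ℕ) :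
    (A : ℝ) * S.card ≤ d * (S.card * k + ρ) + ((A + d).choose (d + 1) : ℝ) := by
  classical
  obtain ⟨s, G, hsG, hA⟩ := adapted S A
  have h1 : ∏ e ∈ S, s e ≠ 0 := Finset.prod_ne_zero_iff.2 fun e he => (hsG e he).1
  have h2 : Van (∑ e ∈ S, G e) (∏ e ∈ S, s e) :=
    van_prod S G s fun e he => (hsG e he).2.2.2
  have h3 : Sup K (S.card * k) ((S.card : ℝ) • v) (∏ e ∈ S, s e) := by
    apply sup_prod hK (interior_subset h0) S s hk.le v
    intro e he f hf
    exact hSK f ((hsG e he).2.2.1 hf)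
  have h4 : (ord d).degree (∏ e ∈ S, s e) = ∑ e ∈ S, e := by
    rw [(ord d).degree_prod fun e he => (hsG e he).1]
    exact Finset.sum_congr rfl fun e he => (hsG e he).2.1
  have h5 : (S.card : ℝ) • v - vec ((ord d).degree (∏ e ∈ S, s e)) ∈ ρ • K := by
    rw [h4, vec_sum]
    exact hσ
  have hcard : (0 : ℝ) < S.card := by exact_mod_cast hS.card_pos
  have h6 := key hK h0 hL h1 h2 (by positivity : 0 < (S.card : ℝ) * k) hρ h3 h5
  have h7 : (A : ℝ) * S.card ≤ ((∑ e ∈ S, G e : ℕ) : ℝ) + ((A + d).choose (d + 1) : ℝ) := by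
    exact_mod_cast hA
  linarith

/-- Main inequality for a finite set of integer points. -/
theorem main_int (hK : Convex ℝ K) (h0 : (0 : Fin d → ℝ) ∈ interior K)
    (hL : ∀ m : Fin d → ℤ, (fun i => (m i : ℝ)) ∈ interior K → m = 0)
    (M : Finset (Fin d → ℤ)) (hM : M.Nonempty) {k ρ : ℝ} (hk : 0 < k) (hρ : 0 ≤ ρ)
    (hMK : ∀ m ∈ M, (fun i => (m i : ℝ)) ∈ k • K)
    (hσ : -(∑ m ∈ M, fun i => (m i : ℝ)) ∈ ρ • K) (A : ℕ) :
    (A : ℝ) * M.card ≤ d * (M.card * k + ρ) + ((A + d).choose (d + 1) : ℝ) := by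
  classical
  -- a shift making all coordinates nonnegative
  obtain ⟨c, hc⟩ : ∃ c : ℕ, ∀ m ∈ M, ∀ i, 0 ≤ m i + c := by
    refine ⟨∑ m ∈ M, ∑ i, (m i).natAbs, ?_⟩
    intro m hm i
    have h1 : (m i).natAbs ≤ ∑ m ∈ M, ∑ i, (m i).natAbs :=
      (Finset.single_le_sum (f := fun i => (m i).natAbs) (fun _ _ => Nat.zero_le _)
        (Finset.mem_univ i)).trans
      (Finset.single_le_sum (f := fun m : Fin d → ℤ => ∑ i, (m i).natAbs)
        (fun _ _ => Nat.zero_le _) hm)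
    omega
  let φ : (Fin d → ℤ) → (Fin d →₀ ℕ) := fun m => Finsupp.equivFunOnFinite.symm
    fun i => (m i + c).toNat
  have hφ : ∀ m ∈ M, ∀ i, ((φ m i : ℕ) : ℤ) = m i + c := by
    intro m hm i
    exact Int.toNat_of_nonneg (hc m hm i)
  have hφv : ∀ m ∈ M, vec (φ m) = (fun i => (m i : ℝ)) + fun _ => (c : ℝ) := by
    intro m hm
    funext i
    have := hφ m hm i
    simp only [vec, Pi.add_apply]
    exact_mod_cast this
  have hinj : Set.InjOn φ M := by
    intro m hm m' hm' h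
    funext i
    have h1 := hφ m hm i
    have h2 := hφ m' hm' i
    rw [h] at h1
    linarith
  have hcard : (M.image φ).card = M.card := Finset.card_image_of_injOn hinj
  have h1 := main_exp hK h0 hL (M.image φ) (hM.image φ) hk hρ (fun _ => (c : ℝ)) ?_ ?_ A
  · rw [hcard] at h1
    exact h1
  · intro e he
    obtain ⟨m, hm, rfl⟩ := Finset.mem_image.1 he
    rw [hφv m hm, add_sub_cancel_right]
    exact hMK m hm
  · rw [hcard, Finset.sum_image hinj]
    have h2 : ∑ m ∈ M, vec (φ m) = (∑ m ∈ M, fun i => (m i : ℝ)) + (M.card : ℝ) • fun _ => (c : ℝ) := by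
      rw [Finset.sum_congr rfl hφv, Finset.sum_add_distrib, Finset.sum_const]
      congr 1
      rw [← Nat.cast_smul_eq_nsmul ℝ]
    rw [h2]
    have h3 : (M.card : ℝ) • (fun _ => (c : ℝ)) -
        ((∑ m ∈ M, fun i => (m i : ℝ)) + (M.card : ℝ) • fun _ => (c : ℝ))
        = -(∑ m ∈ M, fun i => (m i : ℝ)) := by abel
    rw [h3]
    exact hσ

end

end Pool.Agent.H18.Ehrhart
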