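import Pool.Agent.H18.Ehrhart.Key

/-!
The limit argument: Ehrhart's volume inequality for the lattice `ℤ^d`.
-/

namespace Pool.Agent.H18.Ehrhart

open MeasureTheory Filter Topology
open scoped Pointwise

noncomputable section

variable {d : ℕ} {K : Set (Fin d → ℝ)}

/-- The real vector of an integer vector. -/
def iv (m : Fin d → ℤ) : Fin d → ℝ := fun i => (m i : ℝ)

theorem iv_injective : Function.Injective (iv : (Fin d → ℤ) → (Fin d → ℝ)) := by
  intro m m' h
  funext i
  have h1 := congrFun h i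
  simp only [iv] at h1
  exact_mod_cast h1

theorem finite_pts (hc : IsCompact K) (n : ℕ) :
    {m : Fin d → ℤ | (n : ℝ)⁻¹ • iv m ∈ K}.Finite ∨ n = 0 := by
  rcases Nat.eq_zero_or_pos n with h | hn
  · exact Or.inr h
  left
  have hn' : (0 : ℝ) < n := by exact_mod_cast hn
  obtain ⟨R, hR⟩ := hc.isBounded.exists_norm_le
  apply (Set.finite_Icc (fun _ : Fin d => -⌈(n : ℝ) * R⌉) (fun _ : Fin d => ⌈(n : ℝ) * R⌉)).subset
  intro m hm
  have h1 := hR _ hm
  have h2 : ∀ i, |(m i : ℝ)| ≤ n * R := by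
    intro i
    have h3 := (norm_le_pi_norm ((n : ℝ)⁻¹ • iv m) i).trans h1
    rw [Pi.smul_apply, smul_eq_mul, Real.norm_eq_abs, abs_mul, abs_of_pos (inv_pos.2 hn'),
      inv_mul_le_iff₀ hn'] at h3
    exact h3
  constructor
  · intro i
    have h3 := (abs_le.1 (h2 i)).1
    have h4 : (-(⌈(n : ℝ) * R⌉ : ℤ) : ℝ) ≤ m i := by
      have := Int.le_ceil ((n : ℝ) * R)
      linarith
    exact_mod_cast h4
  · intro i
    have h3 := (abs_le.1 (h2 i)).2
    have h4 : ((m i : ℤ) : ℝ) ≤ (⌈(n : ℝ) * R⌉ : ℤ) := h3.trans (Int.le_ceil _)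
    exact_mod_cast h4

/-- The finite set of integer points of `n K`. -/
def pts (K : Set (Fin d → ℝ)) (n : ℕ) : Finset (Fin d → ℤ) := by
  classical
  exact if h : {m : Fin d → ℤ | (n : ℝ)⁻¹ • iv m ∈ K}.Finite then h.toFinset else ∅

theorem mem_pts (hc : IsCompact K) {n : ℕ} (hn : n ≠ 0) {m : Fin d → ℤ} :
    m ∈ pts K n ↔ (n : ℝ)⁻¹ • iv m ∈ K := by
  have h := (finite_pts hc n).resolve_right hn
  rw [pts, dif_pos h]
  simp

theorem inter_eq (hc : IsCompact K) {n : ℕ} (hn : n ≠ 0) :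
    K ∩ (n : ℝ)⁻¹ • ((Submodule.span ℤ (Set.range (Pi.basisFun ℝ (Fin d))) : Submodule ℤ (Fin d → ℝ)) :
      Set (Fin d → ℝ))
    = (((pts K n).image fun m => (n : ℝ)⁻¹ • iv m : Finset (Fin d → ℝ)) : Set (Fin d → ℝ)) := by
  ext x
  simp only [Set.mem_inter_iff, Finset.coe_image, Set.mem_image, Finset.mem_coe]
  constructor
  · rintro ⟨hx, y, hy, rfl⟩
    rw [SetLike.mem_coe, Module.Basis.mem_span_iff_repr_mem] at hy
    choose m hm using hy
    have hy2 : iv m = y := by
      funext i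
      have := hm i
      simp only [Pi.basisFun_repr] at this
      exact this
    refine ⟨m, ?_, ?_⟩
    · rw [mem_pts hc hn, hy2]; exact hx
    · rw [hy2]
  · rintro ⟨m, hm, rfl⟩
    rw [mem_pts hc hn] at hm
    refine ⟨hm, iv m, ?_, rfl⟩
    rw [SetLike.mem_coe, Module.Basis.mem_span_iff_repr_mem]
    intro i
    exact ⟨m i, by simp [iv]⟩

theorem tendsto_sum (hK : Convex ℝ K) (hc : IsCompact K) (F : (Fin d → ℝ) → ℝ)
    (hF : Continuous F) :
    Tendsto (fun n : ℕ => (∑ m ∈ pts K n, F ((n : ℝ)⁻¹ • iv m)) / (n : ℝ) ^ d) atTop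
      (𝓝 (∫ x in K, F x)) := by
  classical
  have h := tendsto_tsum_div_pow_atTop_integral K F hF hc.isBounded hc.measurableSet
    (hK.addHaar_frontier volume)
  refine h.congr' ?_
  filter_upwards [eventually_ne_atTop 0] with n hn
  rw [Fintype.card_fin]
  congr 1
  have hn' : (n : ℝ)⁻¹ ≠ 0 := inv_ne_zero (by exact_mod_cast hn)
  rw [inter_eq hc hn, Finset.tsum_subtype', Finset.sum_image]
  intro m _ m' _ h
  exact iv_injective (smul_right_injective _ hn' h)

theorem tendsto_card (hK : Convex ℝ K) (hc : IsCompact K) :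
    Tendsto (fun n : ℕ => ((pts K n).card : ℝ) / (n : ℝ) ^ d) atTop (𝓝 (volume.real K)) := by
  have h := tendsto_sum hK hc (fun _ => 1) continuous_const
  simpa using h

theorem tendsto_mean (hK : Convex ℝ K) (hc : IsCompact K) (hcent : ∫ x in K, x = 0) :
    Tendsto (fun n : ℕ => ((n : ℝ) ^ d)⁻¹ • ∑ m ∈ pts K n, (n : ℝ)⁻¹ • iv m) atTop
      (𝓝 (0 : Fin d → ℝ)) := by
  rw [tendsto_pi_nhds]
  intro i
  have h := tendsto_sum hK hc (fun x => x i) (continuous_apply i)
  have h2 : ∫ x in K, x i = 0 := by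
    have hint : Integrable (fun x : Fin d → ℝ => x) (volume.restrict K) :=
      (continuous_id.continuousOn.integrableOn_compact hc)
    have h3 := (ContinuousLinearMap.proj (R := ℝ) (φ := fun _ : Fin d => ℝ) i).integral_comp_comm
      hint
    rw [hcent] at h3
    simpa using h3
  rw [h2] at h
  refine h.congr fun n => ?_
  rw [Pi.smul_apply, Finset.sum_apply, smul_eq_mul, div_eq_inv_mul]

/-- Ehrhart's volume inequality for `ℤ^d`. -/
theorem ehrhart_int (hK : Convex ℝ K) (hc : IsCompact K) (h0 : (0 : Fin d → ℝ) ∈ interior K)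
    (hL : ∀ m : Fin d → ℤ, (fun i => (m i : ℝ)) ∈ interior K → m = 0)
    (hcent : ∫ x in K, x = 0) :
    volume.real K ≤ ((d : ℝ) + 1) ^ d / d.factorial := by
  classical
  set V : ℝ := volume.real K with hV
  have hKn : K ∈ 𝓝 (0 : Fin d → ℝ) := mem_interior_iff_mem_nhds.1 h0
  have hVpos : 0 < V := by
    rw [hV, measureReal_def]
    apply ENNReal.toReal_pos
    · exact (Measure.measure_pos_of_mem_nhds volume hKn).ne'
    · exact hc.measure_lt_top.ne
  have hcard := tendsto_card hK hc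
  rw [← hV] at hcard
  have hmean := tendsto_mean hK hc hcent
  have hfinal : ∀ δ : ℝ, 0 < δ →
      ((d : ℝ) + 1) * V ≤ d * (1 + δ) * V + ((d : ℝ) + 1) ^ (d + 1) / (d + 1).factorial := by
    intro δ hδ
    -- the mean of the points tends to zero
    have h1 : Tendsto (fun n : ℕ => -((((pts K n).card : ℝ) / (n : ℝ) ^ d)⁻¹ •
        (((n : ℝ) ^ d)⁻¹ • ∑ m ∈ pts K n, (n : ℝ)⁻¹ • iv m))) atTop (𝓝 (0 : Fin d → ℝ)) := by
      have := ((hcard.inv₀ hVpos.ne').smul hmean).neg
      simpa using this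
    have h2 : ∀ᶠ n : ℕ in atTop, -((((pts K n).card : ℝ) / (n : ℝ) ^ d)⁻¹ •
        (((n : ℝ) ^ d)⁻¹ • ∑ m ∈ pts K n, (n : ℝ)⁻¹ • iv m)) ∈ δ • K :=
      h1 ((set_smul_mem_nhds_zero_iff hδ.ne').2 hKn)
    have h3 : ∀ᶠ n : ℕ in atTop, 0 < ((pts K n).card : ℝ) / (n : ℝ) ^ d :=
      hcard.eventually (lt_mem_nhds hVpos)
    have h4 : ∀ᶠ n : ℕ in atTop, ((d : ℝ) + 1) * (((pts K n).card : ℝ) / (n : ℝ) ^ d)
        ≤ d * (1 + δ) * (((pts K n).card : ℝ) / (n : ℝ) ^ d)
          + (((d : ℝ) + 1) + d * (n : ℝ)⁻¹) ^ (d + 1) / (d + 1).factorial := by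
      filter_upwards [h2, h3, eventually_gt_atTop 0] with n hn2 hn3 hn
      have hn' : (0 : ℝ) < n := by exact_mod_cast hn
      have hnd : (0 : ℝ) < (n : ℝ) ^ d := by positivity
      have hcp : (0 : ℝ) < ((pts K n).card : ℝ) := by
        by_contra hcon
        have : ((pts K n).card : ℝ) / (n : ℝ) ^ d ≤ 0 :=
          div_nonpos_of_nonpos_of_nonneg (not_lt.1 hcon) hnd.le
        linarith
      have hne : (pts K n).Nonempty := by
        rw [← Finset.card_pos]; exact_mod_cast hcp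
      have h5 : ∀ m ∈ pts K n, (fun i => (m i : ℝ)) ∈ (n : ℝ) • K := by
        intro m hm
        rw [mem_pts hc hn.ne'] at hm
        refine ⟨_, hm, ?_⟩
        simp only [smul_smul, mul_inv_cancel₀ hn'.ne', one_smul]
        rfl
      have h6 : -(∑ m ∈ pts K n, fun i => (m i : ℝ)) ∈ (δ * (n * (pts K n).card)) • K := by
        obtain ⟨y, hy, hy2⟩ := hn2
        refine ⟨y, hy, ?_⟩
        simp only at hy2 ⊢
        rw [mul_comm δ, mul_smul, hy2, smul_neg, ← Finset.smul_sum]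
        simp only [smul_smul]
        have h7 : ((n : ℝ) * ((pts K n).card : ℝ)) * ((((pts K n).card : ℝ) / (n : ℝ) ^ d)⁻¹ *
            (((n : ℝ) ^ d)⁻¹ * (n : ℝ)⁻¹)) = 1 := by
          field_simp
        rw [h7, one_smul]
        rfl
      have h8 := main_int hK h0 hL (pts K n) hne hn'
        (by positivity : 0 ≤ δ * (n * ((pts K n).card : ℝ))) h5 h6 ((d + 1) * n)
      have h9 : ((((d + 1) * n + d).choose (d + 1) : ℕ) : ℝ)
          ≤ ((((d + 1) * n + d : ℕ) : ℝ)) ^ (d + 1) / (d + 1).factorial :=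
        Nat.choose_le_pow_div _ _
      have h10 : ((((d + 1) * n + d : ℕ) : ℝ)) = n * (((d : ℝ) + 1) + d * (n : ℝ)⁻¹) := by
        push_cast
        field_simp
      rw [h10, mul_pow] at h9
      push_cast at h8
      have h11 : ((d : ℝ) + 1) * n * ((pts K n).card : ℝ)
          ≤ d * (((pts K n).card : ℝ) * n + δ * (n * ((pts K n).card : ℝ)))
            + (n : ℝ) ^ (d + 1) * (((d : ℝ) + 1) + d * (n : ℝ)⁻¹) ^ (d + 1)
              / (d + 1).factorial := by
        linarith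
      have hnd1 : (0 : ℝ) < (n : ℝ) ^ (d + 1) := by positivity
      rw [← mul_le_mul_iff_of_pos_left hnd1]
      have h12 : (n : ℝ) ^ (d + 1) * (((d : ℝ) + 1) * (((pts K n).card : ℝ) / (n : ℝ) ^ d))
          = ((d : ℝ) + 1) * n * ((pts K n).card : ℝ) := by
        rw [pow_succ]
        field_simp
      have h13 : (n : ℝ) ^ (d + 1) * (d * (1 + δ) * (((pts K n).card : ℝ) / (n : ℝ) ^ d)
          + (((d : ℝ) + 1) + d * (n : ℝ)⁻¹) ^ (d + 1) / (d + 1).factorial)
          = d * (((pts K n).card : ℝ) * n + δ * (n * ((pts K n).card : ℝ)))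
            + (n : ℝ) ^ (d + 1) * (((d : ℝ) + 1) + d * (n : ℝ)⁻¹) ^ (d + 1)
              / (d + 1).factorial := by
        rw [mul_add, mul_div_assoc ((n : ℝ) ^ (d + 1))]
        congr 1
        rw [pow_succ]
        field_simp
      rw [h12, h13]
      exact h11
    have h14 : Tendsto (fun n : ℕ => ((d : ℝ) + 1) * (((pts K n).card : ℝ) / (n : ℝ) ^ d))
        atTop (𝓝 (((d : ℝ) + 1) * V)) := hcard.const_mul _
    have h15 : Tendsto (fun n : ℕ => d * (1 + δ) * (((pts K n).card : ℝ) / (n : ℝ) ^ d)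
          + (((d : ℝ) + 1) + d * (n : ℝ)⁻¹) ^ (d + 1) / (d + 1).factorial)
        atTop (𝓝 (d * (1 + δ) * V + (((d : ℝ) + 1) + d * 0) ^ (d + 1) / (d + 1).factorial)) := by
      apply (hcard.const_mul _).add
      apply Tendsto.div_const
      apply Tendsto.pow
      apply Tendsto.const_add
      apply Tendsto.const_mul
      exact tendsto_inv_atTop_zero.comp tendsto_natCast_atTop_atTop
    rw [mul_zero, add_zero] at h15
    exact le_of_tendsto_of_tendsto h14 h15 h4
  have hmain : V ≤ ((d : ℝ) + 1) ^ (d + 1) / (d + 1).factorial := by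
    apply le_of_forall_pos_le_add
    intro ε hε
    have h := hfinal (ε / (d * V + 1)) (by positivity)
    have h2 : (d : ℝ) * (ε / (d * V + 1)) * V ≤ ε := by
      have h3 : (d : ℝ) * (ε / (d * V + 1)) * V = ε * ((d * V) / (d * V + 1)) := by ring
      rw [h3]
      have h4 : ((d : ℝ) * V) / (d * V + 1) ≤ 1 := by
        rw [div_le_one (by positivity)]
        linarith
      nlinarith
    nlinarith
  refine hmain.trans (le_of_eq ?_)
  rw [Nat.factorial_succ, pow_succ]
  push_cast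
  have : ((d : ℝ) + 1) ≠ 0 := by positivity
  field_simp

end

end Pool.Agent.H18.Ehrhart
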